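import Pool.Agent.H104.ML.Stm
import Pool.Agent.Erdos456.Mertens

/-! Jobs MA and MB of project ML of helper104. -/

set_option autoImplicit false

namespace Pool.Agent.Q166.ML

open Finset Pool.Agent.H104.ML Pool.Agent.Erdos456.Mert

/-- integer part of the `K`-th root -/
theorem root_fl (m K : ℕ) (hm : 1 ≤ m) (hK : 1 ≤ K) :
    ∃ M : ℕ, 1 ≤ M ∧ (∀ p : ℕ, p ^ K ≤ m ↔ p ≤ M) ∧ Real.log M ≤ Real.log m / K ∧
      Real.log m / K - Real.log 2 ≤ Real.log M := by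
  have hm0 : (0 : ℝ) < m := by exact_mod_cast hm
  have hm1 : (1 : ℝ) ≤ m := by exact_mod_cast hm
  have hK0 : (0 : ℝ) < K := by exact_mod_cast hK
  set x : ℝ := (m : ℝ) ^ ((K : ℝ)⁻¹) with hx
  have hx1 : 1 ≤ x := Real.one_le_rpow hm1 (inv_nonneg.2 hK0.le)
  have hx0 : 0 < x := by linarith
  have hlogx : Real.log x = Real.log m / K := by
    rw [hx, Real.log_rpow hm0, div_eq_inv_mul]
  have hM1 : 1 ≤ ⌊x⌋₊ := (Nat.one_le_floor_iff x).2 hx1
  have hMr : (1 : ℝ) ≤ (⌊x⌋₊ : ℝ) := by exact_mod_cast hM1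
  refine ⟨⌊x⌋₊, hM1, fun p => ?_, ?_, ?_⟩
  · rw [Nat.le_floor_iff hx0.le, hx, Real.le_rpow_inv_iff_of_pos (Nat.cast_nonneg p) hm0.le hK0,
      Real.rpow_natCast]
    exact_mod_cast Iff.rfl
  · rw [← hlogx]
    exact Real.log_le_log (by linarith) (Nat.floor_le hx0.le)
  · rw [← hlogx, ← Real.log_div hx0.ne' two_ne_zero]
    refine Real.log_le_log (by linarith) ?_
    have := Nat.lt_floor_add_one x
    linarith

theorem t_MA : S_MA := by
  obtain ⟨C, hC⟩ := mertens_log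
  have hC0 : 0 ≤ C := (abs_nonneg _).trans (hC 1 le_rfl)
  refine ⟨2 * C, by linarith, fun m J N hm hJ hN => ?_⟩
  obtain ⟨M, hM1, hMp, hMlog, -⟩ := root_fl m (2 ^ (J - 1)) (by omega) Nat.one_le_two_pow
  have h1 : Real.log N - C ≤ ∑ p ∈ (Icc 1 N).filter Nat.Prime, Real.log p / p := by
    have := (abs_le.1 (hC N hN)).1
    linarith
  have h2 : ∑ p ∈ (Icc 1 M).filter Nat.Prime, Real.log p / p ≤ Real.log M + C := by
    have := (abs_le.1 (hC M hM1)).2
    linarith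
  have h3 : ∑ p ∈ (Icc 1 N).filter Nat.Prime, Real.log p / (p : ℝ) =
      ∑ p ∈ (Icc 1 N).filter (fun p => p.Prime ∧ m < p ^ 2 ^ (J - 1)), Real.log p / (p : ℝ) +
      ∑ p ∈ (Icc 1 N).filter (fun p => p.Prime ∧ ¬ m < p ^ 2 ^ (J - 1)), Real.log p / (p : ℝ) := by
    rw [← Finset.sum_filter_add_sum_filter_not ((Icc 1 N).filter Nat.Prime)
      (fun p => m < p ^ 2 ^ (J - 1)), Finset.filter_filter, Finset.filter_filter]
  have h4 : ∑ p ∈ (Icc 1 N).filter (fun p => p.Prime ∧ ¬ m < p ^ 2 ^ (J - 1)),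
      Real.log p / (p : ℝ) ≤ ∑ p ∈ (Icc 1 M).filter Nat.Prime, Real.log p / (p : ℝ) := by
    refine Finset.sum_le_sum_of_subset_of_nonneg ?_ fun p _ _ => ?_
    · intro p hp
      simp only [mem_filter, mem_Icc, not_lt] at hp ⊢
      exact ⟨⟨hp.1.1, (hMp p).1 hp.2.2⟩, hp.2.1⟩
    · exact div_nonneg (Real.log_natCast_nonneg p) (Nat.cast_nonneg p)
  have h5 : Real.log M ≤ Real.log m / 2 ^ (J - 1) := by
    have := hMlog
    push_cast at this
    exact this
  linarith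

theorem t_MB : S_MB := by
  obtain ⟨C, hC⟩ := mertens_log
  have hC0 : 0 ≤ C := (abs_nonneg _).trans (hC 1 le_rfl)
  have hl2 : 0 ≤ Real.log 2 := Real.log_nonneg one_le_two
  refine ⟨2 * C + Real.log 2, by linarith, fun m i hm hi => ?_⟩
  obtain ⟨M, hM1, hMp, hMlog, -⟩ := root_fl m (2 ^ (i - 1)) (by omega) Nat.one_le_two_pow
  obtain ⟨L, hL1, hLp, -, hLlog⟩ := root_fl m (2 ^ i) (by omega) Nat.one_le_two_pow
  have h1 : Real.log L - C ≤ ∑ p ∈ (Icc 1 L).filter Nat.Prime, Real.log p / p := by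
    have := (abs_le.1 (hC L hL1)).1
    linarith
  have h2 : ∑ p ∈ (Icc 1 M).filter Nat.Prime, Real.log p / p ≤ Real.log M + C := by
    have := (abs_le.1 (hC M hM1)).2
    linarith
  have h3 : ∑ p ∈ (Icc 1 m).filter (fun p => p.Prime ∧ p ^ 2 ^ (i - 1) ≤ m ∧ m < p ^ 2 ^ i),
      Real.log p / (p : ℝ) + ∑ p ∈ (Icc 1 L).filter Nat.Prime, Real.log p / (p : ℝ) ≤
      ∑ p ∈ (Icc 1 M).filter Nat.Prime, Real.log p / (p : ℝ) := by
    rw [← Finset.sum_union]
    · refine Finset.sum_le_sum_of_subset_of_nonneg ?_ fun p _ _ => ?_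
      · intro p hp
        simp only [mem_union, mem_filter, mem_Icc] at hp ⊢
        rcases hp with hp | hp
        · exact ⟨⟨hp.1.1, (hMp p).1 hp.2.2.1⟩, hp.2.1⟩
        · refine ⟨⟨hp.1.1, (hMp p).1 ?_⟩, hp.2⟩
          refine le_trans (Nat.pow_le_pow_right hp.1.1 ?_) ((hLp p).2 hp.1.2)
          exact Nat.pow_le_pow_right two_pos (Nat.sub_le i 1)
      · exact div_nonneg (Real.log_natCast_nonneg p) (Nat.cast_nonneg p)
    · rw [Finset.disjoint_left]
      intro p hp hp'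
      simp only [mem_filter, mem_Icc] at hp hp'
      have := (hLp p).2 hp'.1.2
      omega
  have h5 : Real.log M ≤ Real.log m / 2 ^ (i - 1) := by
    have := hMlog
    push_cast at this
    exact this
  have h6 : Real.log m / 2 ^ i - Real.log 2 ≤ Real.log L := by
    have := hLlog
    push_cast at this
    exact this
  have h7 : Real.log m / 2 ^ (i - 1) = 2 * (Real.log m / 2 ^ i) := by
    obtain ⟨k, rfl⟩ : ∃ k, i = k + 1 := ⟨i - 1, by omega⟩
    rw [Nat.add_sub_cancel, pow_succ]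
    field_simp
  linarith

end Pool.Agent.Q166.ML
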