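import Pool.Agent.Q166.ML.MA

/-! Job MC of project ML of helper104. -/

set_option autoImplicit false

namespace Pool.Agent.Q166.ML

open Finset Pool.Agent.H104.ML Pool.Agent.Erdos456.Mert

/-- the level is attained -/
theorem lev_spec (m p : ℕ) (hp : 2 ≤ p) : m < p ^ 2 ^ lev m p := by
  have h : {i | m < p ^ 2 ^ i}.Nonempty := by
    refine ⟨m, ?_⟩
    have h1 : m < 2 ^ m := Nat.lt_two_pow_self
    have h2 : 2 ^ m ≤ 2 ^ 2 ^ m := Nat.pow_le_pow_right two_pos h1.le
    have h3 : 2 ^ 2 ^ m ≤ p ^ 2 ^ m := Nat.pow_le_pow_left hp _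
    exact lt_of_lt_of_le h1 (h2.trans h3)
  exact Nat.sInf_mem h

/-- all prime factors of the numbers of level `i` are large -/
theorem lv_spec {m b i : ℕ} (h : lv m b = i) {p : ℕ} (hp : p.Prime) (hpb : p ∣ b) (hb : b ≠ 0) :
    m < p ^ 2 ^ i := by
  have hb1 : b ≠ 1 := fun h1 => hp.one_lt.ne' (Nat.dvd_one.1 (h1 ▸ hpb))
  unfold lv at h
  rw [if_neg hb1] at h
  have h2 : 2 ≤ b.minFac := (Nat.minFac_prime hb1).two_le
  have h3 := lev_spec m b.minFac h2
  rw [h] at h3
  exact lt_of_lt_of_le h3 (Nat.pow_le_pow_left (Nat.minFac_le_of_dvd hp.two_le hpb) _)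

theorem t_MC : S_MC := by
  obtain ⟨C, hC⟩ := mertens_inv
  have hC0 : 0 ≤ C := (abs_nonneg _).trans (hC 3 le_rfl)
  have hl2 : 0 < Real.log 2 := Real.log_pos one_lt_two
  refine ⟨2 * Real.exp (2 * C), by positivity, fun m J i hJ hm hi => ?_⟩
  -- `m` is large
  have hmlog : (4 : ℝ) ≤ Real.log m / 2 ^ i := by
    rw [le_div_iff₀ (by positivity)]
    have h1 : (2 : ℝ) ^ i ≤ 2 ^ (J - 1) := pow_le_pow_right₀ one_le_two (by omega)
    have h2 : (4 : ℝ) ^ J = 4 * 4 ^ (J - 1) := by
      obtain ⟨k, rfl⟩ : ∃ k, J = k + 1 := ⟨J - 1, by omega⟩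
      rw [Nat.add_sub_cancel, pow_succ]; ring
    have h3 : (2 : ℝ) ^ (J - 1) ≤ 4 ^ (J - 1) := pow_le_pow_left₀ (by norm_num) (by norm_num) _
    calc (4 : ℝ) * 2 ^ i ≤ 4 * 4 ^ (J - 1) := by linarith
      _ = 4 ^ J := h2.symm
      _ ≤ _ := hm
  have hlm : 0 < Real.log m := by
    have : (0 : ℝ) < 4 ^ J := by positivity
    linarith
  have hm1 : 1 ≤ m := by
    rcases Nat.eq_zero_or_pos m with rfl | h
    · simp at hlm
    · exact h
  obtain ⟨M, hM1, hMp, hMu, hMl⟩ := root_fl m (2 ^ i) hm1 Nat.one_le_two_pow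
  push_cast at hMu hMl
  have hl2' : Real.log 2 < 1 := by
    have := Real.log_two_lt_d9; linarith
  have hM3 : 3 ≤ M := by
    by_contra hcon
    have h1 : M ≤ 2 := by omega
    have h2 : Real.log M ≤ Real.log 2 :=
      Real.log_le_log (by exact_mod_cast hM1) (by exact_mod_cast h1)
    linarith
  have hmM : M ≤ m := by
    have h1 : M ^ 2 ^ i ≤ m := (hMp M).2 le_rfl
    exact (Nat.le_self_pow (pow_ne_zero _ two_ne_zero) M).trans h1
  -- the primes
  set Q : Finset ℕ := (Icc 1 m).filter (fun p => p.Prime ∧ m < p ^ 2 ^ i) with hQ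
  have hsumQ : ∑ p ∈ Q, (1 : ℝ) / p ≤ 2 * C + (i + 1) * Real.log 2 := by
    have h1 : ∑ p ∈ Q, (1 : ℝ) / p + ∑ p ∈ (Icc 1 M).filter Nat.Prime, (1 : ℝ) / p ≤
        ∑ p ∈ (Icc 1 m).filter Nat.Prime, (1 : ℝ) / p := by
      rw [← Finset.sum_union]
      · refine Finset.sum_le_sum_of_subset_of_nonneg ?_ fun p _ _ => by positivity
        intro p hp
        simp only [hQ, mem_union, mem_filter, mem_Icc] at hp ⊢
        rcases hp with hp | hp
        · exact ⟨hp.1, hp.2.1⟩
        · exact ⟨⟨hp.1.1, hp.1.2.trans hmM⟩, hp.2⟩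
      · rw [Finset.disjoint_left]
        intro p hp hp'
        simp only [hQ, mem_filter, mem_Icc] at hp hp'
        have := (hMp p).2 hp'.1.2
        omega
    have h2 := (abs_le.1 (hC m (hM3.trans hmM))).2
    have h3 := (abs_le.1 (hC M hM3)).1
    have h4 : Real.log (Real.log m) - (i + 1) * Real.log 2 ≤ Real.log (Real.log M) := by
      have e1 : Real.log (Real.log m / 2 ^ (i + 1)) =
          Real.log (Real.log m) - (i + 1) * Real.log 2 := by
        rw [Real.log_div hlm.ne' (by positivity), Real.log_pow]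
        push_cast; ring
      rw [← e1]
      refine Real.log_le_log (by positivity) ?_
      have e2 : Real.log m / 2 ^ (i + 1) = Real.log m / 2 ^ i / 2 := by
        rw [pow_succ, div_div]
      rw [e2]
      linarith
    linarith
  -- the map to the sets of prime factors
  have hmem : ∀ b ∈ (SS m J).filter (fun b => lv m b = i), b.primeFactors ∈ Q.powerset := by
    intro b hb
    simp only [SS, mem_filter, mem_Icc] at hb
    rw [mem_powerset]
    intro p hp
    have hpp := Nat.prime_of_mem_primeFactors hp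
    have hpd := Nat.dvd_of_mem_primeFactors hp
    simp only [hQ, mem_filter, mem_Icc]
    exact ⟨⟨hpp.one_lt.le, (Nat.le_of_dvd (by omega) hpd).trans hb.1.1.2⟩, hpp,
      lv_spec hb.2 hpp hpd (by omega)⟩
  have hinj : Set.InjOn (fun b : ℕ => b.primeFactors)
      ((SS m J).filter (fun b => lv m b = i) : Finset ℕ) := by
    intro b hb c hc hbc
    simp only [SS, coe_filter, mem_filter, mem_Icc, Set.mem_setOf_eq] at hb hc
    have h1 := Nat.prod_primeFactors_of_squarefree hb.1.2.1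
    have h2 := Nat.prod_primeFactors_of_squarefree hc.1.2.1
    simp only at hbc
    rw [← h1, ← h2, hbc]
  have hterm : ∀ b ∈ (SS m J).filter (fun b => lv m b = i),
      (b.totient : ℝ) / (b : ℝ) ^ 2 ≤ ∏ p ∈ b.primeFactors, (1 : ℝ) / p := by
    intro b hb
    simp only [SS, mem_filter, mem_Icc] at hb
    have h1 := Nat.prod_primeFactors_of_squarefree hb.1.2.1
    have hb0 : (0 : ℝ) < b := by exact_mod_cast hb.1.1.1
    have h2 : ∏ p ∈ b.primeFactors, (1 : ℝ) / p = 1 / b := by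
      rw [Finset.prod_div_distrib, Finset.prod_const_one, ← Nat.cast_prod, h1]
    rw [h2, div_le_div_iff₀ (by positivity) hb0]
    have h3 : (b.totient : ℝ) ≤ b := by exact_mod_cast Nat.totient_le b
    nlinarith
  calc ∑ b ∈ (SS m J).filter (fun b => lv m b = i), (b.totient : ℝ) / (b : ℝ) ^ 2
      ≤ ∑ b ∈ (SS m J).filter (fun b => lv m b = i), ∏ p ∈ b.primeFactors, (1 : ℝ) / p :=
        Finset.sum_le_sum hterm
    _ = ∑ T ∈ ((SS m J).filter (fun b => lv m b = i)).image (fun b : ℕ => b.primeFactors),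
          ∏ p ∈ T, (1 : ℝ) / p := by rw [Finset.sum_image hinj]
    _ ≤ ∑ T ∈ Q.powerset, ∏ p ∈ T, (1 : ℝ) / p := by
        refine Finset.sum_le_sum_of_subset_of_nonneg ?_ fun T _ _ =>
          Finset.prod_nonneg fun p _ => by positivity
        intro T hT
        obtain ⟨b, hb, rfl⟩ := Finset.mem_image.1 hT
        exact hmem b hb
    _ = ∏ p ∈ Q, (1 + (1 : ℝ) / p) := (Finset.prod_one_add Q).symm
    _ ≤ ∏ p ∈ Q, Real.exp ((1 : ℝ) / p) := by
        refine Finset.prod_le_prod (fun p _ => by positivity) fun p _ => ?_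
        rw [add_comm]
        exact Real.add_one_le_exp _
    _ = Real.exp (∑ p ∈ Q, (1 : ℝ) / p) := (Real.exp_sum _ _).symm
    _ ≤ Real.exp (2 * C + (i + 1) * Real.log 2) := Real.exp_le_exp.2 hsumQ
    _ = 2 * Real.exp (2 * C) * 2 ^ i := by
        rw [Real.exp_add, show ((i : ℝ) + 1) * Real.log 2 = Real.log (2 ^ (i + 1)) by
          rw [Real.log_pow]; push_cast; ring, Real.exp_log (by positivity), pow_succ]
        ring

end Pool.Agent.Q166.ML
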